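import Pool.Agent.Results.MP_89a3f8_ag.TerminationOfFlips
import Pool.Agent.Run7.h530.FI.Models

/-!
# Finitely many minimal models of toroidal covers of products of projective spaces and their images

Let `F i` be a form of degree `d i` in `n i + 1` variables whose zero set in the projective
`n i`-space is a smooth hypersurface, and let `K` be the function field of an abelian cover `Y` of the
product of the projective `n i`-spaces which is branched along the hypersurfaces `F i = 0` of the
factors: `K` is generated by the affine coordinates and by roots `z j`,
`z j ^ (m j) = ∏ i, (F i (x i) / x i 0 ^ (d i)) ^ (a j i)`. Equivalently, `Y` is a quotient of the product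
of the cyclic hypersurfaces `H i`, `w ^ (d i) = F i`, by a group of diagonal automorphisms. Let `X` be a
toroidal modification of `Y`, given by `fan` (the definitions are those of the starting result
`MP_89a3f8_ag.TerminationOfFlips`).

**The varieties `X_0`.** Let `X_0` be a normal projective variety with a generically finite morphism
`X → X_0`, for instance `X_0 = X` or the quotient of `X` by ANY finite group of automorphisms
(permutations of equal factors, automorphisms of the forms, ...). Its function field `K0` is a subfield
of `K` and `K / K0` is finite. On `X_0` there are `ℚ`-Cartier divisors `D 1, ..., D p`; `δ i P` is the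
coefficient of the pull back of `D i` at the prime divisor `P` over `X_0`. We assume that the pull back
of `D i` to the models of `K` is the sum of a toroidal divisor on `X` and of the divisor of a function
`g i`. Let `𝒬` be the set of the prime divisors on `X_0`. The `D i` are `ℚ`-Cartier and `X_0` is normal,
so a function is a section of a combination of the `D i` if its orders at the prime divisors on `X_0`
are large enough (`hsec`).

If all `n i ≥ 3` and `X_0` is `ℚ`-factorial, then the `D i` can be chosen as a basis of
`N¹(X_0) ⊗ ℚ = Pic(X_0) ⊗ ℚ`, since all divisors on `X` are toroidal up to linear equivalence and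
multiples (Lefschetz; this remark is not used and not proved here).

**Small modifications.** Let `X_0 ⇢ X'` be an isomorphism in codimension one to a projective variety
`X'` such that the strict transforms `D' i` are `ℚ`-Cartier and some combination of them is ample; if
`X_0` is `ℚ`-factorial and the `D i` generate `Pic(X_0) ⊗ ℚ` these are all the marked small
`ℚ`-factorial modifications of `X_0`. Such an `X'` is given by the coefficients `δ' i P` of the pull
backs of the `D' i` at the prime divisors `P` over `X_0` (`IsSmallModification`), from which `X'` can be
recovered as `Proj` of the ring of sections of an ample combination.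

**Theorem.** There are only finitely many small modifications `X'` of `X_0`, and only finitely many
nef cones `Nef(X')` in the space `ℝ ^ p` of the real combinations of the `D i`.

The minimal models of `X_0`, if `X_0` is a minimal model itself, are small modifications of `X_0` (well
known, not used here), so there are finitely many minimal models, even as marked varieties. The theorem
holds for all degrees `d i`, so that the Kodaira dimension can be any number: it is the sum of the
`n i` with `d i > n i + 2`, if all `d i ≥ n i + 2` and `X_0 = X = Y` is the product of the `H i`, and the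
same for the quotients by finite groups which act freely in codimension one. Known cases are the
varieties of general type and dimension `3`.

**The proof.** The multigraded ring of the sections of the combinations of the toroidal divisors on `X`
is finitely generated (starting tree, `Q57.CX`). The ring of the sections of the combinations of the
`D i` on `X_0` is finitely generated too, since the former ring is integral over it (`fg_desc`). It is also
the ring of the sections of the combinations of the `D' i` on `X'`. Let `s b` be finitely many
homogeneous generators. A combination of the `D' i` has a section which does not vanish at the centre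
of `P` on `X'` if and only if its degree is a sum of degrees of generators `s b` which do not vanish
there. So the set of the sets of generators which do not vanish at the centre of some `P` determines
the combinations which are base point free on `X'`, and these determine the coefficients `δ' i P`, since
the `D' i` are differences of base point free divisors with rational coefficients (`eq_of_vans`).
-/

set_option autoImplicit false

open FF MvPolynomial Pool.Agent.W602.GT Run7.h530.FI
open Pool.Agent.Results.MP_89a3f8_ag.TerminationOfFlips (Smooth Admissible InCone IsFan affine
  coefficient)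

namespace Pool.Agent.Results.MP_beb4a5_ag.SmallModifications

/-- **Finitely many minimal models.** Let `X_0` be the image under a generically finite morphism of
a toroidal modification `X` of an abelian cover of a product of projective spaces branched along smooth
hypersurfaces of the factors, and let the `D i` be `ℚ`-Cartier divisors on `X_0` whose pull backs to `X`
are toroidal up to linear equivalence. Let `𝒬` be the set of the prime divisors on `X_0`. Then
(1) there are only finitely many small modifications `X'` of `X_0` on which the strict transforms `D' i`
are `ℚ`-Cartier and some combination of them is ample: finitely many systems `ε` of coefficients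
represent all of them;
(2) there are only finitely many nef cones of such `X'` in the space of the combinations of the `D i`. -/
theorem result (r N R p : ℕ) (n d : Fin r → ℕ) (hr : 1 ≤ r) (hn : ∀ i, 1 ≤ n i)
    (hd : ∀ i, 1 ≤ d i) (hN : N = ∑ i, n i)
    (F : ∀ i, MvPolynomial (Fin (n i + 1)) ℂ) (hF : ∀ i, (F i).IsHomogeneous (d i))
    (hs : ∀ i, Smooth (F i)) (m : Fin R → ℕ) (hm : ∀ j, 1 ≤ m j) (a : Fin R → Fin r → ℕ)
    (hdiv : ∀ j i, m j ∣ a j i * d i)
    (K : Type) [Field K] [Algebra ℂ K] (x : ∀ i, Fin (n i + 1) → K) (hx0 : ∀ i, x i 0 ≠ 0)
    (hbas : IsTranscendenceBasis ℂ (affine x)) (z : Fin R → K)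
    (hz : ∀ j, z j ^ m j = ∏ i, (aeval (x i) (F i) / x i 0 ^ d i) ^ a j i)
    (hgen : IntermediateField.adjoin ℂ (Set.range (affine x) ∪ Set.range z) = ⊤)
    (fan : Finset (Finset (Fin r → ℕ))) (hfan : IsFan m a fan)
    (c : Fin p → (Fin r → ℕ) → ℚ) (hc0 : ∀ i, c i 0 = 0) (β : Fin p → Fin r → ℤ)
    (u : Finset (Fin r → ℕ) → Fin p → Fin r → ℚ)
    (hlin : ∀ σ ∈ fan, ∀ i v, Admissible m a v → InCone σ v → - c i v = ∑ k, u σ i k * v k)
    (K0 : Type) [Field K0] [Algebra ℂ K0] [Algebra K0 K] [IsScalarTower ℂ K0 K]
    [FiniteDimensional K0 K] (δ : Fin p → Place ℂ K0 → ℚ) (M : ℕ) (hM : 1 ≤ M)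
    (hint : ∀ i P, Divisorial N P → ∃ b : ℤ, (M : ℚ) * δ i P = b)
    (g : Fin p → K) (hg : ∀ i, g i ≠ 0)
    (hδ : ∀ (i : Fin p) (Q : Place ℂ K) (P : Place ℂ K0) (e : ℕ), Over Q P e → Divisorial N Q →
      (e : ℚ) * δ i P = coefficient F d x (c i) (β i) Q + Q.ord (g i))
    (𝒬 : Set (Place ℂ K0)) (h𝒬 : ∀ P ∈ 𝒬, Divisorial N P)
    (hsec : ∀ (μ : Fin p → ℤ) (f : K0),
      (∀ P ∈ 𝒬, f = 0 ∨ - ∑ i, (μ i : ℚ) * δ i P ≤ P.ord f) → IsSection N δ μ f) :
    (∃ 𝒟 : Finset (Fin p → Place ℂ K0 → ℚ), (∀ ε ∈ 𝒟, IsSmallModification N 𝒬 δ ε) ∧
      ∀ δ', IsSmallModification N 𝒬 δ δ' → ∃ ε ∈ 𝒟, ∀ i P, Divisorial N P → δ' i P = ε i P) ∧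
    {C | ∃ δ', IsSmallModification N 𝒬 δ δ' ∧ C = nefCone N δ'}.Finite :=
  finite_models (Run7.h530.FI.fg_desc hg (fun i Q P e h hQ => hδ i Q P e h hQ) hM hint
    (Pool.Agent.Q57.CX.main_cox (N := N) hr hn hN hd hF hs hx0 hbas hm hdiv hz hgen
      (S := fan) ⟨hfan.adm, hfan.full, hfan.cover⟩ hc0 (u := u) hlin (β := β)
      (δ := fun i P => coefficient F d x (c i) (β i) P) (fun _ _ => rfl))) h𝒬 hsec

end Pool.Agent.Results.MP_beb4a5_ag.SmallModifications
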